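import Mathlib

/-! MP_a4f561_co, S10566 (unbounded page number): programs, ordered runs, twists. Proof: /team-store/a4f561_NEG53_PROOF.md -/

namespace N53

/-- Operations by position, strictly inside the list (first and last element are never touched). -/
inductive Op where
  | ins (i : ℕ)
  | del (i : ℕ)

/-- `l'` is `l` without its element number `i`, which is neither the first nor the last one. -/
def DelAt {α : Type*} (i : ℕ) (l l' : List α) : Prop :=
  1 ≤ i ∧ i + 1 < l.length ∧ l' = l.eraseIdx i

/-- One step of a run. After `ins i` the new element is number `i` of `l'`. -/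
def Step {α : Type*} : Op → List α → List α → Prop
  | .ins i, l, l' => DelAt i l' l
  | .del i, l, l' => DelAt i l l'

/-- `s 0, s 1, .., s g.length` is a run of the program `g`. -/
def Run {α : Type*} (g : List Op) (s : ℕ → List α) : Prop :=
  ∀ j (h : j < g.length), Step g[j] (s j) (s (j + 1))

/-- No element is inserted again after its deletion. -/
def Conv {α : Type*} (T : ℕ) (s : ℕ → List α) : Prop :=
  ∀ i m j x, i ≤ m → m ≤ j → j ≤ T → x ∈ s i → x ∈ s j → x ∈ s m

/-- Ordered run: all lists increasing, no element reinserted. -/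
structure OR {α : Type*} [LinearOrder α] (g : List Op) (s : ℕ → List α) : Prop where
  run : Run g s
  srt : ∀ j ≤ g.length, (s j).Pairwise (· < ·)
  conv : Conv g.length s

/-- Edges: pairs which are consecutive in one of the lists `s 0, .., s T`. -/
def Ed {α : Type*} (T : ℕ) (s : ℕ → List α) (a b : α) : Prop :=
  ∃ j ≤ T, [a, b] <:+: s j

/-- Length bookkeeping: `g` can be played in a list of length `n` and ends with length `n'`. -/
def Ok : List Op → ℕ → ℕ → Prop
  | [], n, n' => n = n'
  | .ins i :: g, n, n' => 1 ≤ i ∧ i < n ∧ Ok g (n + 1) n'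
  | .del i :: g, n, n' => 1 ≤ i ∧ i + 1 < n ∧ Ok g (n - 1) n'

/-- Shift of positions: playing in a window with `d` elements to the left of it. -/
def shO (d : ℕ) : Op → Op
  | .ins i => .ins (i + d)
  | .del i => .del (i + d)

/-- Time reversal. -/
def flO : Op → Op
  | .ins i => .del i
  | .del i => .ins i

def rev (g : List Op) : List Op := (g.map flO).reverse

/-- `T` is a twist of edges of `E`. -/
structure Tw (E : ℕ → ℕ → Prop) (T : List (ℕ × ℕ)) : Prop where
  mem : ∀ e ∈ T, E e.1 e.2
  cr : T.Pairwise (fun e f => e.1 < f.1 ∧ e.2 < f.2)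
  lt : ∀ e ∈ T, ∀ f ∈ T, e.1 < f.2

/-- No twist with more than `K` edges. -/
def Bdd (K : ℕ) (E : ℕ → ℕ → Prop) : Prop := ∀ T, Tw E T → T.length ≤ K

/-- `F*(k)` for K-bounded orders: every cut between `a = L_0` and `b = R_0` is covered by a k-twist. -/
def PP (K k : ℕ) : Prop :=
  ∃ (w : ℕ) (g : List Op), Ok g (2 * w + 2) 2 ∧
    ∀ (s : ℕ → List ℕ) (A B : List ℕ) (a b : ℕ), OR g s → Bdd K (Ed g.length s) →
      A.length = w → B.length = w → s 0 = A ++ a :: b :: B →
      ∀ x, a ≤ x → x < b → ∃ T, Tw (Ed g.length s) T ∧ T.length = k ∧ ∀ e ∈ T, e.1 ≤ x ∧ x < e.2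

/-- Uniform version: one k-twist with all lower ends `< a = L_0`, all upper ends `> b = R_0`. -/
def UU (K k : ℕ) : Prop :=
  ∃ (c : ℕ) (g : List Op), 1 ≤ c ∧ Ok g (2 * c + 2) 2 ∧
    ∀ (s : ℕ → List ℕ) (A B : List ℕ) (a b : ℕ), OR g s → Bdd K (Ed g.length s) →
      A.length = c → B.length = c → s 0 = A ++ a :: b :: B →
      ∃ T, Tw (Ed g.length s) T ∧ T.length = k ∧ ∀ e ∈ T, e.1 < a ∧ b < e.2

end N53
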